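import Mathlib
import Pool.Agent.Q15.CQ.A3

/-!
# A modular lattice with no complete extension in its quasivariety

The lattice of all subspaces of finite dimension or finite codimension of a vector space of
infinite dimension does not embed into any complete lattice of its quasivariety.  Hence it embeds,
within its quasivariety, into no algebraic lattice, into no spatial lattice and into no algebraic
spatial lattice.
-/

set_option autoImplicit false

namespace Pool.Agent.Results.MP_019b27_al.NoCompleteExtension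

universe u

/-- Lattice terms in the variables `x_0, x_1, x_2, ...`. -/
inductive Term : Type
  | var (i : ℕ) : Term
  | sup (s t : Term) : Term
  | inf (s t : Term) : Term

/-- The value of a term. -/
def Term.eval {L : Type*} [Lattice L] (v : ℕ → L) : Term → L
  | .var i => v i
  | .sup s t => s.eval v ⊔ t.eval v
  | .inf s t => s.eval v ⊓ t.eval v

/-- A quasi-identity `(s_1 = t_1 and ... and s_n = t_n) implies s = t`: the list of the premises
and the conclusion. -/
structure QuasiIdentity : Type where
  premises : List (Term × Term)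
  conclusion : Term × Term

/-- The quasi-identity `q` holds in `L`. -/
def Holds (L : Type*) [Lattice L] (q : QuasiIdentity) : Prop :=
  ∀ v : ℕ → L, (∀ e ∈ q.premises, e.1.eval v = e.2.eval v) →
    q.conclusion.1.eval v = q.conclusion.2.eval v

/-- `K` belongs to the quasivariety generated by `L`. -/
def InQuasivariety (L : Type*) (K : Type*) [Lattice L] [Lattice K] : Prop :=
  ∀ q : QuasiIdentity, Holds L q → Holds K q

/-- `L` embeds within its quasivariety into `K`. -/
def EmbedsWithin (L : Type*) (K : Type*) [Lattice L] [Lattice K] : Prop :=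
  InQuasivariety L K ∧ ∃ f : L → K, Function.Injective f ∧
    (∀ a b, f (a ⊔ b) = f a ⊔ f b) ∧ (∀ a b, f (a ⊓ b) = f a ⊓ f b)

/-- Compact elements of a complete lattice. -/
def Compact {K : Type*} [CompleteLattice K] (c : K) : Prop :=
  ∀ X : Set K, c ≤ sSup X → ∃ Y : Set K, Y ⊆ X ∧ Y.Finite ∧ c ≤ sSup Y

/-- A complete lattice is algebraic if every element is a join of compact elements. -/
def Algebraic (K : Type*) [CompleteLattice K] : Prop :=
  ∀ a : K, ∃ X : Set K, (∀ c ∈ X, Compact c) ∧ a = sSup X

/-- Completely join-irreducible elements of a complete lattice. -/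
def JoinIrreducible {K : Type*} [CompleteLattice K] (p : K) : Prop :=
  ∀ X : Set K, p = sSup X → p ∈ X

/-- A complete lattice is spatial if every element is a join of completely join-irreducible
elements. -/
def Spatial (K : Type*) [CompleteLattice K] : Prop :=
  ∀ a : K, ∃ X : Set K, (∀ p ∈ X, JoinIrreducible p) ∧ a = sSup X

/-- The modular law as a quasi-identity without premises. -/
def qmod : QuasiIdentity where
  premises := []
  conclusion := (.inf (.sup (.var 0) (.var 1)) (.sup (.var 0) (.var 2)),
    .sup (.var 0) (.inf (.var 1) (.sup (.var 0) (.var 2))))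

/-- If `x` and `w`, `w` and `y` are perspective and `x ≤ y` then `x = y`
(variables `x = 0`, `y = 1`, `z = 2`, `w = 3`, `z' = 4`). -/
def qfin : QuasiIdentity where
  premises := [(.sup (.var 0) (.var 4), .sup (.var 3) (.var 4)),
    (.inf (.var 0) (.var 4), .inf (.var 3) (.var 4)),
    (.sup (.var 3) (.var 2), .sup (.var 1) (.var 2)),
    (.inf (.var 3) (.var 2), .inf (.var 1) (.var 2)),
    (.sup (.var 0) (.var 1), .var 1)]
  conclusion := (.var 0, .var 1)

open Pool.Agent.Q15.CQ

/-- the sequences with finite support -/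
abbrev W : Type := ℕ →₀ ℚ

/-- the shift -/
noncomputable def S : W →ₗ[ℚ] W := Finsupp.lmapDomain ℚ ℚ Nat.succ

theorem S_inj : Function.Injective S := Finsupp.mapDomain_injective Nat.succ_injective

theorem S_zero (x : W) : S x 0 = 0 := by
  refine Finsupp.mapDomain_notin_range x 0 ?_
  rintro ⟨n, hn⟩
  exact Nat.succ_ne_zero n hn

theorem S_succ (x : W) (n : ℕ) : S x (n + 1) = x n :=
  Finsupp.mapDomain_apply Nat.succ_injective x n

theorem not_mem : Finsupp.single 0 (1 : ℚ) ∉ LinearMap.range S := by
  rintro ⟨x, hx⟩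
  have h := S_zero x
  rw [hx, Finsupp.single_eq_same] at h
  exact one_ne_zero h

theorem decomp (a : W) : ∃ b : W, a = S b + a 0 • Finsupp.single 0 (1 : ℚ) := by
  refine ⟨a.comapDomain Nat.succ (Nat.succ_injective.injOn), ?_⟩
  ext i
  rw [Finsupp.add_apply, Finsupp.smul_apply]
  cases i with
  | zero => simp [S_zero]
  | succ n =>
    rw [S_succ, Finsupp.comapDomain_apply, Finsupp.single_eq_of_ne (by omega)]
    simp

theorem span_top : Pr S ⊔ (Submodule.span ℚ {((Finsupp.single 0 1, 0) : W × W)}) = ⊤ := by
  refine eq_top_iff.mpr ?_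
  rintro ⟨a, b⟩ -
  obtain ⟨c, hc⟩ := decomp a
  have h : ((a, b) : W × W) = (S c, b) + a 0 • (Finsupp.single 0 1, 0) := by
    refine Prod.ext ?_ ?_
    · exact hc
    · simp
  rw [h]
  refine Submodule.add_mem_sup ⟨⟨c, rfl⟩, trivial⟩ ?_
  exact Submodule.smul_mem _ _ (Submodule.mem_span_singleton_self _)

theorem fin_quot : FiniteDimensional ℚ ((W × W) ⧸ Pr S) := by
  refine Module.Finite.of_surjective ((Pr S).mkQ.comp
    (Submodule.span ℚ {((Finsupp.single 0 1, 0) : W × W)}).subtype) ?_
  intro q
  obtain ⟨v, rfl⟩ := Submodule.mkQ_surjective _ q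
  have hv : v ∈ Pr S ⊔ (Submodule.span ℚ {((Finsupp.single 0 1, 0) : W × W)}) := by
    rw [span_top]; trivial
  obtain ⟨p, hp, r, hr, rfl⟩ := Submodule.mem_sup.mp hv
  refine ⟨⟨r, hr⟩, ?_⟩
  rw [map_add]
  have h1 : (Pr S).mkQ p = 0 := by simpa using hp
  rw [h1, zero_add]
  rfl

/-- There is a modular lattice `L` that embeds, within its quasivariety, into no complete lattice
at all. So each of the parts (a), (b), (c) has a negative answer: not every modular lattice embeds,
within its quasivariety, into an algebraic lattice, or into a spatial lattice, or into an algebraic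
spatial lattice. -/
theorem result :
    (∃ (L : Type) (_ : Lattice L), (∀ a b c : L, a ≤ c → (a ⊔ b) ⊓ c = a ⊔ (b ⊓ c)) ∧
      ∀ (K : Type u) [CompleteLattice K], ¬ EmbedsWithin L K) ∧
    (¬ ∀ (L : Type) [Lattice L], (∀ a b c : L, a ≤ c → (a ⊔ b) ⊓ c = a ⊔ (b ⊓ c)) →
      ∃ (K : Type u) (_ : CompleteLattice K), Algebraic K ∧ EmbedsWithin L K) ∧
    (¬ ∀ (L : Type) [Lattice L], (∀ a b c : L, a ≤ c → (a ⊔ b) ⊓ c = a ⊔ (b ⊓ c)) →
      ∃ (K : Type u) (_ : CompleteLattice K), Spatial K ∧ EmbedsWithin L K) ∧
    (¬ ∀ (L : Type) [Lattice L], (∀ a b c : L, a ≤ c → (a ⊔ b) ⊓ c = a ⊔ (b ⊓ c)) →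
      ∃ (K : Type u) (_ : CompleteLattice K), Algebraic K ∧ Spatial K ∧ EmbedsWithin L K) := by
  have key : ∃ (L : Type) (_ : Lattice L), (∀ a b c : L, a ≤ c → (a ⊔ b) ⊓ c = a ⊔ (b ⊓ c)) ∧
      ∀ (K : Type u) [CompleteLattice K], ¬ EmbedsWithin L K := by
    refine ⟨FCL ℚ (W × W), inferInstance, modular, ?_⟩
    rintro K _ ⟨hq, f, hf, hsup, hinf⟩
    have hmod : ∀ a b c : K, a ≤ c → (a ⊔ b) ⊓ c = a ⊔ (b ⊓ c) := by
      intro a b c hac
      have h1 : Holds (FCL ℚ (W × W)) qmod := by
        intro v _
        exact modular _ _ _ le_sup_left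
      have h2 := hq qmod h1 (fun i => if i = 0 then a else if i = 1 then b else c)
        (fun e he => by simp [qmod] at he)
      have h3 : (a ⊔ b) ⊓ (a ⊔ c) = a ⊔ (b ⊓ (a ⊔ c)) := h2
      rwa [sup_eq_right.mpr hac] at h3
    have hdf : ∀ x y z w z' : K, x ⊔ z' = w ⊔ z' → x ⊓ z' = w ⊓ z' → w ⊔ z = y ⊔ z →
        w ⊓ z = y ⊓ z → x ≤ y → x = y := by
      intro x y z w z' e1 e2 e3 e4 e5
      have h1 : Holds (FCL ℚ (W × W)) qfin := by
        intro v hv
        have g1 := hv (.sup (.var 0) (.var 4), .sup (.var 3) (.var 4)) (by simp [qfin])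
        have g2 := hv (.inf (.var 0) (.var 4), .inf (.var 3) (.var 4)) (by simp [qfin])
        have g3 := hv (.sup (.var 3) (.var 2), .sup (.var 1) (.var 2)) (by simp [qfin])
        have g4 := hv (.inf (.var 3) (.var 2), .inf (.var 1) (.var 2)) (by simp [qfin])
        have g5 := hv (.sup (.var 0) (.var 1), .var 1) (by simp [qfin])
        exact finiteness (v 0) (v 1) (v 2) (v 3) (v 4) g1 g2 g3 g4 (sup_eq_right.mp g5)
      have h2 := hq qfin h1
        (fun i => if i = 0 then x else if i = 1 then y else if i = 2 then z else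
          if i = 3 then w else z') (by
            intro e he
            simp only [qfin, List.mem_cons, List.not_mem_nil, or_false] at he
            rcases he with rfl | rfl | rfl | rfl | rfl
            · exact e1
            · exact e2
            · exact e3
            · exact e4
            · exact sup_eq_right.mpr e5)
      exact h2
    exact main f hsup hinf hf hmod hdf S S_inj (Finsupp.single 0 1) not_mem fin_quot span_top
  refine ⟨key, ?_, ?_, ?_⟩
  · obtain ⟨L, hL, h1, h2⟩ := key
    intro h
    obtain ⟨K, hK, -, h3⟩ := h L h1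
    exact h2 K h3
  · obtain ⟨L, hL, h1, h2⟩ := key
    intro h
    obtain ⟨K, hK, -, h3⟩ := h L h1
    exact h2 K h3
  · obtain ⟨L, hL, h1, h2⟩ := key
    intro h
    obtain ⟨K, hK, -, -, h3⟩ := h L h1
    exact h2 K h3

end Pool.Agent.Results.MP_019b27_al.NoCompleteExtension
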